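import Pool.Agent.X308.S.BBMain
import Pool.Agent.X308.S.TriMain

/-!
# Murre's conjectures for varieties of surface type: main theorem
-/

set_option autoImplicit false

open CategoryTheory AlgebraicGeometry

universe u v w

namespace Pool.Agent.U213.PH

open Pool.Agent.H914 Pool.Agent.H914.VarClass Pool.Agent.H914.VarClass.Obj Pool.Agent.W492.BB
  Pool.Agent.W550.Corr Pool.Agent.TH133 Pool.Agent.Y148.BB Pool.Agent.X308.S

variable {k : Type u} [Field k] {𝒱 : VarClass k} {C : TheoryData.{u, v, 0} 𝒱 ℚ} {K : Type w}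
  [Field K] [hC : IsChowProj C]
  {H : WeilTheoryData.{u, v, w} C K} [hH : IsWeilProj H] {X : 𝒱.Obj}

/-- The conjectures of Murre for a variety of surface type. -/
theorem main (hS : SurfaceProperties H) (hX : OfSurfaceType C X) :
    List.TFAE [MurreB0 H X ∧ MurreB1 H X, MurreB1 H X, MurreC H X, MurreD H X,
      PhantomsActTrivially H X] := by
  obtain ⟨π, h⟩ := exists_pure (H := H) hS hX
  exact tfae_murre h.ck (noRaising_of_wt hS h.wt) (B0_of_wt h.ck h.wt) (B1_of_wt hS h.ck h.wt)
    (D_of_wt hS h.ck h.wt)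

/-- One step in each codimension suffices. -/
theorem step (hS : SurfaceProperties H) (hX : OfSurfaceType C X) (n : ℕ → ℕ)
    (hn : ∀ l, 2 * l < n l + 2 * X.dim ∧ n l ≤ 2 * l)
    (h : ∀ π π', IsCK H X π → IsCK H X π' → ∀ l, ckFil C π l (n l) = ckFil C π' l (n l)) :
    MurreC H X := by
  obtain ⟨π, h'⟩ := exists_pure (H := H) hS hX
  exact ((main hS hX).out 4 2).1 (phantoms_of_step h'.ck (noRaising_of_wt hS h'.wt) n hn h)

end Pool.Agent.U213.PH
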